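import Pool.Agent.Helper783.JK.P_thmA2
import Pool.Agent.Helper783.JK.P_obstruction
import Pool.Agent.Helper783.JK.Necessity2
import Pool.Agent.Helper783.JK.P_bad_of_same

/-!
# Realisable mixed Jordan-Kronecker types

The condition `Occurs` is sufficient for every type with a Kronecker block, and it is also
necessary as soon as all Kronecker blocks have size at most `3` or no two bad eigenvalues carry
the same Jordan block sizes (an eigenvalue is bad if its largest Jordan block is not unique).
-/

namespace Pool.Agent.Results.MP_0fcc55_al.MixedTypes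

open Pool.Agent.Helper783.JK

/-- `T` has a `3 × 3` Kronecker block, or two trivial (`1 × 1`) Kronecker blocks, or the number
of eigenvalues whose largest Jordan block is not unique is at most `∑ (k c + 1)`, the sum over
the Kronecker blocks, the block `c` having size `(2 k c + 1) × (2 k c + 1)`. -/
def Occurs (T : JKType) : Prop :=
  (∃ c, T.k c = 1) ∨ (∃ c c', c ≠ c' ∧ T.k c = 0 ∧ T.k c' = 0) ∨
    Nat.card {e // Bad T e} ≤ ∑ c, (T.k c + 1)

/-- Let `T` be an algebraic type with at least one Kronecker block. If `Occurs T` holds, then `T`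
is the Jordan-Kronecker invariant of a finite-dimensional complex Lie algebra. Conversely, if
all Kronecker blocks of `T` have size at most `3`, or if no two distinct bad eigenvalues of `T`
have the same Jordan block sizes, then `Occurs T` is also necessary. -/
theorem result (T : JKType) (hκ : Nonempty T.κ) :
    (Occurs T → Realizable T) ∧
    (((∀ c, T.k c ≤ 1) ∨ ∀ e e', Bad T e → Bad T e' → SamePart T e e' → e = e') →
      (Realizable T → Occurs T)) := by
  classical
  refine ⟨fun h => thmA2 T h, fun hcl hT => ?_⟩
  unfold Occurs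
  by_cases h1 : ∃ c, T.k c = 1
  · exact Or.inl h1
  right
  by_cases h2 : ∃ c c', c ≠ c' ∧ T.k c = 0 ∧ T.k c' = 0
  · exact Or.inl h2
  right
  have hk1 : ∀ c, T.k c ≠ 1 := fun c hc => h1 ⟨c, hc⟩
  have hk0 : ∀ c c', T.k c = 0 → T.k c' = 0 → c = c' := by
    intro c c' hc hc'
    by_contra hne
    exact h2 ⟨c, c', hne, hc, hc'⟩
  rcases hcl with hk | hd
  · have h0 : ∀ c, T.k c = 0 := by
      intro c
      have := hk c
      have := hk1 c
      omega
    obtain ⟨c0⟩ := hκ
    have hc0 : ∀ c, c = c0 := fun c => hk0 c c0 (h0 c) (h0 c0)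
    have hsum : 1 ≤ ∑ c, (T.k c + 1) := by
      calc 1 ≤ T.k c0 + 1 := by omega
        _ ≤ ∑ c, (T.k c + 1) :=
          Finset.single_le_sum (f := fun c => T.k c + 1) (fun _ _ => Nat.zero_le _)
            (Finset.mem_univ c0)
    refine le_trans ?_ hsum
    rw [Finite.card_le_one_iff_subsingleton]
    constructor
    rintro ⟨e, he⟩ ⟨e', he'⟩
    exact Subtype.ext (obstruction T c0 hc0 (h0 c0) hT e e' he he')
  · have h3 := necessity2 T hT hk1 hk0
    refine le_trans (le_of_eq ?_) h3
    refine Nat.card_congr (Equiv.subtypeEquivRight fun e => ⟨fun he => ⟨he, fun e' hs => ?_⟩,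
      fun he => he.1⟩)
    exact (hd e e' he (bad_of_same T e e' hs he) hs).symm

end Pool.Agent.Results.MP_0fcc55_al.MixedTypes
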