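import Pool.Agent.Helper783.JK.P_thmA2
import Pool.Agent.Helper783.JK.P_obstruction

/-!
# Mixed types with Kronecker blocks of size at most 3

A type with at least one Kronecker block, all of them of size `1 × 1` or `3 × 3`, is the
Jordan-Kronecker invariant of a finite-dimensional complex Lie algebra unless it has exactly one
Kronecker block, of size `1 × 1`, and two distinct eigenvalues whose largest Jordan block is not
unique.
-/

namespace Pool.Agent.Results.MP_0fcc55_al.SmallKronecker

open Pool.Agent.Helper783.JK

/-- Let `T` be an algebraic type with at least one Kronecker block in which all Kronecker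
blocks have size `1 × 1` or `3 × 3`. Then `T` is the Jordan-Kronecker invariant of some
finite-dimensional Lie algebra if and only if the following does not hold: there is exactly
one Kronecker block, it has size `1 × 1`, and there are two distinct eigenvalues for which the
largest Jordan block is not unique. -/
theorem result (T : JKType) (hκ : Nonempty T.κ) (hk : ∀ c, T.k c ≤ 1) :
    Realizable T ↔ ¬ (Nat.card T.κ = 1 ∧ (∀ c, T.k c = 0) ∧
      ∃ e e', e ≠ e' ∧ Bad T e ∧ Bad T e') := by
  classical
  constructor
  · rintro hT ⟨h1, h0, e, e', hne, hb, hb'⟩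
    obtain ⟨c0⟩ := hκ
    rw [Nat.card_eq_fintype_card, Fintype.card_eq_one_iff] at h1
    obtain ⟨c1, hc1⟩ := h1
    exact hne (obstruction T c1 hc1 (h0 c1) hT e e' hb hb')
  · intro h
    apply thmA2 T
    by_cases h1 : ∃ c, T.k c = 1
    · exact Or.inl h1
    · right
      have h0 : ∀ c, T.k c = 0 := by
        intro c
        have := hk c
        have h2 : T.k c ≠ 1 := fun h' => h1 ⟨c, h'⟩
        omega
      by_cases h2 : Nat.card T.κ = 1
      · right
        have hsum : 1 ≤ ∑ c, (T.k c + 1) := by
          obtain ⟨c0⟩ := hκ
          calc 1 ≤ T.k c0 + 1 := by omega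
            _ ≤ ∑ c, (T.k c + 1) :=
              Finset.single_le_sum (f := fun c => T.k c + 1) (fun _ _ => Nat.zero_le _)
                (Finset.mem_univ c0)
        refine le_trans ?_ hsum
        rw [Finite.card_le_one_iff_subsingleton]
        constructor
        rintro ⟨e, he⟩ ⟨e', he'⟩
        by_contra hne
        exact h ⟨h2, h0, e, e', fun h' => hne (Subtype.ext h'), he, he'⟩
      · left
        have h3 : 1 < Nat.card T.κ := by
          have : Nat.card T.κ ≠ 0 := by
            rw [Nat.card_eq_fintype_card]
            exact Fintype.card_ne_zero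
          omega
        rw [Finite.one_lt_card_iff_nontrivial] at h3
        obtain ⟨c, c', hcc⟩ := exists_pair_ne T.κ
        exact ⟨c, c', hcc, h0 c, h0 c'⟩

end Pool.Agent.Results.MP_0fcc55_al.SmallKronecker
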