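import Pool.Agent.Helper783.JK.P_thmA2
import Pool.Agent.Helper783.JK.Necessity2

/-!
# Two-sided bounds for realisable Jordan-Kronecker types

For a type without `3 × 3` Kronecker blocks and with at most one trivial Kronecker block, let
`D = ∑ (k c + 1)`. If at most `D` eigenvalues are bad (largest Jordan block not unique) then the
type is realisable; if it is realisable then at most `D` of the bad eigenvalues have block sizes
that no other eigenvalue has.
-/

namespace Pool.Agent.Results.MP_0fcc55_al.UniqueBound

open Pool.Agent.Helper783.JK

/-- A type without `3 × 3` Kronecker blocks and with at most one trivial Kronecker block occurs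
if it has at most `∑ (k c + 1)` bad eigenvalues, and it does not occur if it has more than
`∑ (k c + 1)` bad eigenvalues whose Jordan block sizes differ from those of all other
eigenvalues. -/
theorem result (T : JKType) (hk1 : ∀ c, T.k c ≠ 1)
    (hk0 : ∀ c c', T.k c = 0 → T.k c' = 0 → c = c') :
    (Nat.card {e // Bad T e} ≤ ∑ c, (T.k c + 1) → Realizable T) ∧
    (∑ c, (T.k c + 1) < Nat.card {e // Bad T e ∧ ∀ e', SamePart T e e' → e' = e} →
      ¬ Realizable T) :=
  ⟨fun h => thmA2 T (Or.inr (Or.inr h)),
    fun h hT => absurd (necessity2 T hT hk1 hk0) (not_le.mpr h)⟩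

end Pool.Agent.Results.MP_0fcc55_al.UniqueBound
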